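import Pool.Agent.helper47.T1.SpecE1

set_option autoImplicit false

open scoped MatrixGroups ContDiff Topology UpperHalfPlane ComplexConjugate
open UpperHalfPlane MeasureTheory Filter Set

namespace Pool.Agent.T1

open Pool.Agent.RS Pool.Agent.MS

noncomputable section

/-- the box -/
def QTR_B : Set ℍ := {z : ℍ | |z.re| ≤ 1 / 4 ∧ |Real.log z.im| ≤ 1 / 4}

theorem QTR_im (z : ℍ) (hz : |Real.log z.im| ≤ 1 / 4) : Real.exp (-(1 / 4)) ≤ z.im ∧ z.im ≤ Real.exp (1 / 4) := by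
  have h1 := abs_le.mp hz
  exact ⟨(Real.le_log_iff_exp_le z.im_pos).mp h1.1, (Real.log_le_iff_le_exp z.im_pos).mp h1.2⟩

theorem QTR_cpt : IsCompact QTR_B := by
  rw [UpperHalfPlane.isOpenEmbedding_coe.isEmbedding.isCompact_iff]
  have h : ((fun z : ℍ => (z : ℂ)) '' QTR_B) = Icc (-(1 / 4) : ℝ) (1 / 4) ×ℂ Icc (Real.exp (-(1 / 4))) (Real.exp (1 / 4)) := by
    ext w
    constructor
    · rintro ⟨z, ⟨h1, h2⟩, rfl⟩
      rw [Complex.mem_reProdIm]
      exact ⟨abs_le.mp h1, QTR_im z h2⟩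
    · intro hw
      rw [Complex.mem_reProdIm] at hw
      obtain ⟨h1, h2, h3⟩ := hw
      have hp : 0 < w.im := lt_of_lt_of_le (Real.exp_pos _) h2
      refine ⟨⟨w, hp⟩, ⟨abs_le.mpr h1, abs_le.mpr ⟨?_, ?_⟩⟩, rfl⟩
      · exact (Real.le_log_iff_exp_le hp).mpr h2
      · exact (Real.log_le_iff_le_exp hp).mpr h3
  have h2 : IsCompact (Icc (-(1 / 4) : ℝ) (1 / 4) ×ℂ Icc (Real.exp (-(1 / 4))) (Real.exp (1 / 4))) := isCompact_Icc.reProdIm isCompact_Icc
  rw [← h] at h2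
  exact h2

theorem QTR_norm (r : ℝ) (c : ℍ → ℂ) (z : ℍ) : ‖pk r c z‖ = ‖c z‖ * z.im ^ (1 / 2 : ℝ) := by
  unfold pk
  rw [norm_mul, Complex.norm_cpow_eq_rpow_re_of_pos z.im_pos]
  congr 2
  simp

theorem QTR_proof (hFL0 : RS.FL0_stmt) (hGYN : RS.GYN_stmt) : QTR_stmt := by
  have hvol : volume QTR_B < ⊤ := QTR_cpt.measure_lt_top
  have hmB : MeasurableSet QTR_B := QTR_cpt.isClosed.measurableSet
  refine ⟨max 1 ((3 * (volume QTR_B).toReal) ^ 2), le_max_left _ _, ?_⟩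
  intro c M hc hM Γ F r φ hΓ hF hφ
  obtain ⟨-, -, -, -, -, -, hcc⟩ := hFL0.1 (1 / 4) c hc
  have hM0 : 0 ≤ M := (norm_nonneg _).trans (hM ⟨Complex.I, by simp⟩)
  have h0 : ∀ z, z ∉ QTR_B → pk r c z = 0 := by
    intro z hz
    have h1 : c z = 0 := by
      by_contra hne
      exact hz (hc.2 z hne)
    unfold pk
    rw [h1, zero_mul]
  have hcont : Continuous (pk r c) := by
    have h1 : Continuous fun z : ℍ => ((z.im : ℝ) : ℂ) ^ ((1 / 2 : ℂ) + (r : ℂ) * Complex.I) :=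
      (Complex.continuous_ofReal.comp UpperHalfPlane.continuous_im).cpow continuous_const (fun z => Complex.ofReal_mem_slitPlane.mpr z.im_pos)
    exact hcc.mul h1
  have hsup : HasCompactSupport (pk r c) := HasCompactSupport.intro QTR_cpt h0
  have h := hGYN Γ F (pk r c) φ hΓ hF hcont hsup hφ
  have hb : ∀ z, ‖pk r c z‖ ≤ QTR_B.indicator (fun _ => 3 * M) z := by
    intro z
    by_cases hz : z ∈ QTR_B
    · rw [indicator_of_mem hz, QTR_norm]
      have h1 : z.im ^ (1 / 2 : ℝ) ≤ 3 := by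
        have h2 : z.im ≤ 3 := by
          have h3 := (QTR_im z hz.2).2
          have h4 : Real.exp (1 / 4) ≤ Real.exp 1 := Real.exp_le_exp.mpr (by norm_num)
          have h5 := Real.exp_one_lt_d9
          linarith
        calc z.im ^ (1 / 2 : ℝ) ≤ (3 : ℝ) ^ (1 / 2 : ℝ) := Real.rpow_le_rpow z.im_pos.le h2 (by norm_num)
          _ ≤ (3 : ℝ) ^ (1 : ℝ) := Real.rpow_le_rpow_of_exponent_le (by norm_num) (by norm_num)
          _ = 3 := Real.rpow_one 3
      calc ‖c z‖ * z.im ^ (1 / 2 : ℝ) ≤ M * 3 := mul_le_mul (hM z) h1 (Real.rpow_nonneg z.im_pos.le _) hM0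
        _ = 3 * M := mul_comm _ _
    · rw [indicator_of_notMem hz, h0 z hz, norm_zero]
  have hi : Integrable (QTR_B.indicator (fun _ : ℍ => 3 * M)) := (integrable_indicator_iff hmB).mpr (integrableOn_const hvol.ne)
  have hint : ∫ z : ℍ, ‖pk r c z‖ ≤ 3 * (volume QTR_B).toReal * M := by
    calc ∫ z : ℍ, ‖pk r c z‖ ≤ ∫ z : ℍ, QTR_B.indicator (fun _ => 3 * M) z :=
        integral_mono_of_nonneg (Eventually.of_forall fun z => norm_nonneg _) hi (Eventually.of_forall hb)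
      _ = 3 * (volume QTR_B).toReal * M := by
        rw [integral_indicator hmB, setIntegral_const, smul_eq_mul]
        show (volume QTR_B).toReal * (3 * M) = _
        ring
  have hint0 : 0 ≤ ∫ z : ℍ, ‖pk r c z‖ := integral_nonneg fun z => norm_nonneg _
  have hnn : 0 ≤ ∫ z in F, ‖φ z‖ ^ 2 := integral_nonneg fun z => by positivity
  have hsq : (∫ z : ℍ, ‖pk r c z‖) ^ 2 ≤ max 1 ((3 * (volume QTR_B).toReal) ^ 2) * M ^ 2 := by
    calc (∫ z : ℍ, ‖pk r c z‖) ^ 2 ≤ (3 * (volume QTR_B).toReal * M) ^ 2 := pow_le_pow_left₀ hint0 hint 2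
      _ = (3 * (volume QTR_B).toReal) ^ 2 * M ^ 2 := mul_pow _ _ _
      _ ≤ _ := mul_le_mul_of_nonneg_right (le_max_right _ _) (by positivity)
  exact h.trans (mul_le_mul_of_nonneg_right hsq hnn)

end

end Pool.Agent.T1
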