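import Pool.Agent.helper52.T1.SpecS

set_option autoImplicit false

open scoped MatrixGroups ContDiff Topology UpperHalfPlane ComplexConjugate
open UpperHalfPlane MeasureTheory Filter Set

namespace Pool.Agent.T1

open Pool.Agent.RS Pool.Agent.MS Pool.Agent.HV
open Pool.Agent.EN (XG MG mkX mkM fl pr)

noncomputable section

theorem JSP_exp (N0 k : ℕ) (hN : 1 ≤ N0) : Real.exp ((k : ℝ) * Real.log N0) = (N0 : ℝ) ^ k := by
  rw [mul_comm, Real.exp_mul, Real.exp_log (by exact_mod_cast hN), Real.rpow_natCast]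

theorem JSP_grp (hGLC : RS.GLC_stmt) (N0 k1 k2 i : ℕ) (hN : 1 ≤ N0) (hi : i < k1) (g : SL(2, ℝ)) (x dd : ℝ) :
    g * nM (dd / N0 ^ k2) * aM (-((k2 : ℝ) * Real.log N0)) * nM (x * N0 ^ k2 - dd) * aM (-(((k1 - i : ℕ) : ℝ) * Real.log N0)) =
      g * nM x * aM (-(((k1 + k2 - i : ℕ) : ℝ) * Real.log N0)) := by
  obtain ⟨-, -, -, -, -, -, -, -, -, -, ha, hn, -, -, -, -, -, hna, -, -⟩ := hGLC
  have hN0 : (0 : ℝ) < N0 := by exact_mod_cast hN
  have hP : (0 : ℝ) < (N0 : ℝ) ^ k2 := by positivity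
  have e1 : aM (-((k2 : ℝ) * Real.log N0)) * nM (x * N0 ^ k2 - dd) = nM (x - dd / N0 ^ k2) * aM (-((k2 : ℝ) * Real.log N0)) := by
    rw [hna (x - dd / N0 ^ k2) (-((k2 : ℝ) * Real.log N0)), neg_neg, JSP_exp N0 k2 hN]
    congr 2
    field_simp
  have e2 : aM (-((k2 : ℝ) * Real.log N0)) * aM (-(((k1 - i : ℕ) : ℝ) * Real.log N0)) = aM (-(((k1 + k2 - i : ℕ) : ℝ) * Real.log N0)) := by
    rw [← ha]
    congr 1
    have h1 : ((k1 - i : ℕ) : ℝ) = (k1 : ℝ) - i := Nat.cast_sub hi.le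
    have h2 : ((k1 + k2 - i : ℕ) : ℝ) = (k1 : ℝ) + k2 - i := by
      rw [Nat.cast_sub (by omega), Nat.cast_add]
    rw [h1, h2]
    ring
  have e3 : nM (dd / N0 ^ k2) * nM (x - dd / N0 ^ k2) = nM x := by
    rw [← hn]
    congr 1
    ring
  calc g * nM (dd / N0 ^ k2) * aM (-((k2 : ℝ) * Real.log N0)) * nM (x * N0 ^ k2 - dd) * aM (-(((k1 - i : ℕ) : ℝ) * Real.log N0))
      = g * nM (dd / N0 ^ k2) * (aM (-((k2 : ℝ) * Real.log N0)) * nM (x * N0 ^ k2 - dd)) * aM (-(((k1 - i : ℕ) : ℝ) * Real.log N0)) := by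
        rw [mul_assoc (g * nM (dd / N0 ^ k2))]
    _ = g * (nM (dd / N0 ^ k2) * nM (x - dd / N0 ^ k2)) * (aM (-((k2 : ℝ) * Real.log N0)) * aM (-(((k1 - i : ℕ) : ℝ) * Real.log N0))) := by
        rw [e1]
        simp only [mul_assoc]
    _ = g * nM x * aM (-(((k1 + k2 - i : ℕ) : ℝ) * Real.log N0)) := by rw [e2, e3]

theorem JSP_proof (hGLC : RS.GLC_stmt) : JSP_stmt := by
  classical
  intro W N0 k1 k2 q g j hN hj
  have hP1 : 0 < N0 ^ k1 := Nat.pow_pos (by omega)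
  unfold JN at hj ⊢
  rw [Finset.mem_filter, Finset.mem_range] at hj
  obtain ⟨hj1, hj2⟩ := hj
  constructor
  · rw [Finset.mem_filter, Finset.mem_range]
    constructor
    · apply Nat.div_lt_of_lt_mul
      rw [← pow_add]
      exact hj1
    · intro i hi hq
      obtain ⟨x, h1, h2, h3⟩ := hj2 (k1 + i) (by omega) hq
      have e1 : k1 + k2 - (k1 + i) = k2 - i := by omega
      have e2 : j / N0 ^ (k1 + i) = j / N0 ^ k1 / N0 ^ i := by rw [pow_add, Nat.div_div_eq_div_mul]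
      rw [e1, e2] at h1 h2
      rw [e1] at h3
      exact ⟨x, h1, h2, h3⟩
  · rw [Finset.mem_filter, Finset.mem_range]
    refine ⟨Nat.mod_lt _ hP1, ?_⟩
    intro i hi hq
    obtain ⟨x, h1, h2, h3⟩ := hj2 i (by omega) hq
    have hPi : 0 < N0 ^ i := Nat.pow_pos (by omega)
    have e1 : j / N0 ^ i = (j % N0 ^ k1) / N0 ^ i + (j / N0 ^ k1) * N0 ^ (k1 - i) := by
      have h4 : j = j % N0 ^ k1 + (j / N0 ^ k1) * N0 ^ (k1 - i) * N0 ^ i := by
        have h5 := Nat.mod_add_div j (N0 ^ k1)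
        have h6 : N0 ^ k1 = N0 ^ (k1 - i) * N0 ^ i := by
          rw [← pow_add]
          congr 1
          omega
        calc j = j % N0 ^ k1 + N0 ^ k1 * (j / N0 ^ k1) := h5.symm
          _ = j % N0 ^ k1 + (j / N0 ^ k1) * N0 ^ k1 := by rw [mul_comm (N0 ^ k1)]
          _ = j % N0 ^ k1 + (j / N0 ^ k1) * (N0 ^ (k1 - i) * N0 ^ i) := by rw [← h6]
          _ = _ := by rw [mul_assoc]
      conv_lhs => rw [h4]
      exact Nat.add_mul_div_right _ _ hPi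
    have e2 : ((j / N0 ^ i : ℕ) : ℝ) = ((j % N0 ^ k1 / N0 ^ i : ℕ) : ℝ) + ((j / N0 ^ k1 : ℕ) : ℝ) * (N0 : ℝ) ^ (k1 - i) := by
      rw [e1]
      push_cast
      ring
    have e3 : x * (N0 : ℝ) ^ (k1 + k2 - i) = (x * (N0 : ℝ) ^ k2 - ((j / N0 ^ k1 : ℕ) : ℝ)) * (N0 : ℝ) ^ (k1 - i) + ((j / N0 ^ k1 : ℕ) : ℝ) * (N0 : ℝ) ^ (k1 - i) := by
      have h4 : k1 + k2 - i = k2 + (k1 - i) := by omega
      rw [h4, pow_add]
      ring
    rw [e2, e3] at h1 h2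
    refine ⟨x * (N0 : ℝ) ^ k2 - ((j / N0 ^ k1 : ℕ) : ℝ), by linarith, by linarith, ?_⟩
    have h5 := JSP_grp hGLC N0 k1 k2 i hN hi g x ((j / N0 ^ k1 : ℕ) : ℝ)
    rw [h5]
    exact h3

end

end Pool.Agent.T1
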